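import Mathlib
import Pool.Agent.Helper930.FEnergy
import Pool.Agent.Helper930.Topo
import Pool.Agent.Helper930.Rigid
import Pool.Agent.Helper930.Weyl

set_option autoImplicit false

open Set Filter Topology MeasureTheory Metric
open scoped ContDiff ENNReal

namespace Pool.Agent.Results.MP_084a52_an.NoMinimizer

/-! ### Definitions (the plane is identified with `ℂ`) -/

/-- A planar domain: a nonempty open connected subset of the plane
(`IsConnected` includes nonemptiness). -/
def IsPlanarDomain (Ω : Set ℂ) : Prop := IsOpen Ω ∧ IsConnected Ω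

/-- Multiply connected: not simply connected. -/
def IsMultiplyConnected (Ω : Set ℂ) : Prop := ¬ IsSimplyConnected Ω

/-- `f ∈ W^{1,1}_loc(Ω)` with weak derivative `Df`: both are locally integrable on `Ω` and the
integration by parts formula holds for all smooth test functions with compact support in `Ω`. -/
def HasWeakDeriv (Ω : Set ℂ) (f : ℂ → ℂ) (Df : ℂ → ℂ →L[ℝ] ℂ) : Prop :=
  LocallyIntegrableOn f Ω ∧ LocallyIntegrableOn Df Ω ∧
    ∀ φ : ℂ → ℝ, ContDiff ℝ ∞ φ → HasCompactSupport φ → tsupport φ ⊆ Ω → ∀ v : ℂ,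
      ∫ x, (fderiv ℝ φ x v) • f x = - ∫ x, φ x • Df x v

/-- The finite distortion conditions: the Jacobian is locally integrable and
`|Df|^2 ≤ K J` almost everywhere on `Ω` (operator norm) for some finite `K ≥ 1`. -/
def HasFiniteDistortion (Ω : Set ℂ) (Df : ℂ → ℂ →L[ℝ] ℂ) : Prop :=
  LocallyIntegrableOn (fun z => (Df z).det) Ω ∧
    ∃ K : ℂ → ℝ, (∀ z, 1 ≤ K z) ∧ ∀ᵐ z ∂(volume.restrict Ω), ‖Df z‖ ^ 2 ≤ K z * (Df z).det

/-- The Hilbert–Schmidt distortion of a matrix: `½ (|A e₁|² + |A e₂|²) / det A` when `det A > 0`,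
and `1` otherwise (for maps of finite distortion `det A < 0` happens only on a null set). -/
noncomputable def hsDist (A : ℂ →L[ℝ] ℂ) : ℝ :=
  if 0 < A.det then (1/2) * (‖A 1‖ ^ 2 + ‖A Complex.I‖ ^ 2) / A.det else 1

/-- `f ∈ 𝓗(Ω, Ω')`, with weak derivative `Df`: `f` is a homeomorphism of `Ω` onto `Ω'` of finite
distortion. -/
structure MemH (Ω Ω' : Set ℂ) (f : ℂ → ℂ) (Df : ℂ → ℂ →L[ℝ] ℂ) : Prop where
  homeo : ∃ e : Ω ≃ₜ Ω', ∀ z : Ω, f z = e z
  weak : HasWeakDeriv Ω f Df
  distortion : HasFiniteDistortion Ω Df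

/-- The energy `∫_Ω 𝕂_f^p` of a map with weak derivative `Df`. -/
noncomputable def energy (p : ℝ) (Ω : Set ℂ) (Df : ℂ → ℂ →L[ℝ] ℂ) : ℝ≥0∞ :=
  ∫⁻ z in Ω, ENNReal.ofReal (hsDist (Df z) ^ p)

/-- The infimum of the energy over `𝓗(Ω, Ω')`. -/
noncomputable def infEnergy (p : ℝ) (Ω Ω' : Set ℂ) : ℝ≥0∞ :=
  ⨅ (h : ℂ → ℂ) (Dh : ℂ → ℂ →L[ℝ] ℂ) (_ : MemH Ω Ω' h Dh), energy p Ω Dh

/-! ### Proof -/

open Pool.Agent.Helper930 Pool.Agent.Helper930.MA

lemma hs_ge_one (A : ℂ →L[ℝ] ℂ) : 1 ≤ hsDist A := by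
  unfold hsDist
  split_ifs with h
  · rw [one_le_div h, ← Complex.normSq_eq_norm_sq, ← Complex.normSq_eq_norm_sq,
      Complex.normSq_apply, Complex.normSq_apply, MA.det_formula]
    nlinarith [sq_nonneg ((A 1).re - (A Complex.I).im), sq_nonneg ((A Complex.I).re + (A 1).im)]
  · exact le_rfl

lemma hs_eq_one {A : ℂ →L[ℝ] ℂ} (h : hsDist A = 1) (hd : 0 < A.det) :
    A Complex.I = Complex.I * A 1 := by
  unfold hsDist at h
  rw [if_pos hd, div_eq_one_iff_eq hd.ne', ← Complex.normSq_eq_norm_sq,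
    ← Complex.normSq_eq_norm_sq, Complex.normSq_apply, Complex.normSq_apply,
    MA.det_formula] at h
  have h1 : ((A 1).re - (A Complex.I).im)^2 + ((A Complex.I).re + (A 1).im)^2 = 0 := by
    nlinarith
  have h2 : (A 1).re - (A Complex.I).im = 0 := by
    have := sq_nonneg ((A Complex.I).re + (A 1).im)
    exact pow_eq_zero_iff (two_ne_zero) |>.mp (by nlinarith [sq_nonneg ((A 1).re - (A Complex.I).im)])
  have h3 : (A Complex.I).re + (A 1).im = 0 := by
    exact pow_eq_zero_iff (two_ne_zero) |>.mp (by nlinarith [sq_nonneg ((A Complex.I).re + (A 1).im)])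
  apply Complex.ext
  · simp; linarith
  · simp; linarith

lemma hs_measurable : Measurable hsDist := by
  unfold hsDist
  have hd := det_continuous
  have h1 : Continuous (fun A : ℂ →L[ℝ] ℂ => A 1) := (ContinuousLinearMap.apply ℝ ℂ (1:ℂ)).continuous
  have h2 : Continuous (fun A : ℂ →L[ℝ] ℂ => A Complex.I) :=
    (ContinuousLinearMap.apply ℝ ℂ (Complex.I:ℂ)).continuous
  refine Measurable.ite (measurableSet_lt measurable_const hd.measurable) ?_ measurable_const
  exact (((h1.norm.pow 2).add (h2.norm.pow 2)).const_mul (1/2) |>.measurable).div hd.measurable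

/-- the dilatation of the explicit maps -/
lemma FF_bounds (m : ℕ) (S : Set ℤ) {p : ℝ} (hp : 0 < p) :
    ∀ᵐ z ∂(volume.restrict (DS S)), ‖fderiv ℝ (FF (gm m)) z‖^2 ≤ 2 * (fderiv ℝ (FF (gm m)) z).det ∧
      ENNReal.ofReal (hsDist (fderiv ℝ (FF (gm m)) z) ^ p) ≤
        1 + (closedBall (1:ℂ) (4/2^m)).indicator (fun _ => ENNReal.ofReal ((5/4)^p)) z := by
  filter_upwards [ae_good m S] with z hz
  obtain ⟨α, β, c, hα, hβ, hc, hc2, hv⟩ := FF_deriv m hz.1 hz.2.1 hz.2.2
  have hc1 : 1 ≤ c := by rcases hc with h | h <;> rw [h] <;> norm_num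
  have hcle : c ≤ 2 := by rcases hc with h | h <;> rw [h] <;> norm_num
  obtain ⟨f1, f2, f3⟩ := mat_facts hc1 hv
  have hα' : 0 < ‖α‖ := norm_pos_iff.mpr hα
  have hβ' : 0 < ‖β‖ := norm_pos_iff.mpr hβ
  have hdet : 0 < (fderiv ℝ (FF (gm m)) z).det := by rw [f1]; positivity
  constructor
  · refine f3.trans ?_
    rw [f1]
    have : c * (c * ‖α‖^2 * ‖β‖^2) ≤ 2 * (c * ‖α‖^2 * ‖β‖^2) := by gcongr
    nlinarith
  · have hval : hsDist (fderiv ℝ (FF (gm m)) z) = (c^2+1)/(2*c) := by
      unfold hsDist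
      rw [if_pos hdet, f1, f2]
      field_simp
    rw [hval]
    rcases hc with h | h
    · rw [h]
      norm_num
    · have hmem := near_one hz.1 (hc2 h)
      rw [indicator_of_mem hmem, h]
      have : ((2:ℝ)^2+1)/(2*2) = 5/4 := by norm_num
      rw [this]
      exact le_add_self

lemma FF_memH (m : ℕ) : MemH (DS univ) (DS {n | n ≠ 0}) (FF (gm m)) (fderiv ℝ (FF (gm m))) where
  homeo := ⟨FH m, FH_apply m⟩
  weak := FF_weak m
  distortion := by
    refine ⟨FF_det_int m univ, fun _ => 2, fun _ => by norm_num, ?_⟩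
    filter_upwards [FF_bounds m univ one_pos] with z hz using hz.1

lemma vol_finite (S : Set ℤ) : volume (DS S) < (⊤ : ℝ≥0∞) :=
  lt_of_le_of_lt (measure_mono (fun z hz => hz.1)) measure_ball_lt_top

lemma FF_energy (m : ℕ) {p : ℝ} (hp : 0 < p) : energy p (DS univ) (fderiv ℝ (FF (gm m))) ≤
    volume (DS univ) + ENNReal.ofReal ((5/4)^p) * volume (closedBall (1:ℂ) (4/2^m)) := by
  unfold energy
  calc ∫⁻ z in DS univ, ENNReal.ofReal (hsDist (fderiv ℝ (FF (gm m)) z) ^ p)
      ≤ ∫⁻ z in DS univ, (1 + (closedBall (1:ℂ) (4/2^m)).indicator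
          (fun _ => ENNReal.ofReal ((5/4)^p)) z) := by
        apply lintegral_mono_ae
        filter_upwards [FF_bounds m univ hp] with z hz using hz.2
    _ = volume (DS univ) + ∫⁻ z in DS univ, (closedBall (1:ℂ) (4/2^m)).indicator
          (fun _ => ENNReal.ofReal ((5/4)^p)) z := by
        rw [lintegral_add_left measurable_const]
        simp
    _ ≤ volume (DS univ) + ∫⁻ z, (closedBall (1:ℂ) (4/2^m)).indicator
          (fun _ => ENNReal.ofReal ((5/4)^p)) z := by
        gcongr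
        exact Measure.restrict_le_self
    _ = _ := by
        rw [lintegral_indicator isClosed_closedBall.measurableSet, setLIntegral_const]

lemma tendsto_vol : Tendsto (fun m : ℕ => volume (closedBall (1:ℂ) (4/2^m))) atTop (𝓝 0) := by
  simp_rw [Complex.volume_closedBall]
  have h1 : Tendsto (fun m : ℕ => (4:ℝ)/2^m) atTop (𝓝 0) := by
    have := (tendsto_pow_atTop_nhds_zero_of_lt_one (r := (1/2:ℝ)) (by norm_num) (by norm_num)).const_mul 4
    rw [mul_zero] at this
    refine this.congr (fun m => ?_)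
    rw [one_div, inv_pow]; rfl
  have h2 : Tendsto (fun m : ℕ => ENNReal.ofReal ((4:ℝ)/2^m)) atTop (𝓝 0) := by
    have := ENNReal.tendsto_ofReal h1
    rwa [ENNReal.ofReal_zero] at this
  have h3 : Tendsto (fun m : ℕ => ENNReal.ofReal ((4:ℝ)/2^m) ^ 2) atTop (𝓝 0) := by
    have h5 := (ENNReal.continuous_pow 2).tendsto 0
    have h6 := h5.comp h2
    rw [zero_pow (two_ne_zero)] at h6
    exact h6
  have h4 := ENNReal.Tendsto.mul_const (b := (NNReal.pi : ℝ≥0∞)) h3 (Or.inr ENNReal.coe_ne_top)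
  simpa using h4

/-- the infimum is at most the area -/
lemma inf_le {p : ℝ} (hp : 0 < p) : infEnergy p (DS univ) (DS {n | n ≠ 0}) ≤ volume (DS univ) := by
  have h1 : ∀ m : ℕ, infEnergy p (DS univ) (DS {n | n ≠ 0}) ≤ volume (DS univ) +
      ENNReal.ofReal ((5/4)^p) * volume (closedBall (1:ℂ) (4/2^m)) := by
    intro m
    refine le_trans ?_ (FF_energy m hp)
    unfold infEnergy
    exact (iInf_le _ (FF (gm m))).trans ((iInf_le _ (fderiv ℝ (FF (gm m)))).trans
      (iInf_le _ (FF_memH m)))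
  have h2 : Tendsto (fun m : ℕ => volume (DS univ) +
      ENNReal.ofReal ((5/4)^p) * volume (closedBall (1:ℂ) (4/2^m))) atTop (𝓝 (volume (DS univ))) := by
    have h3 := (ENNReal.Tendsto.const_mul tendsto_vol
      (Or.inr (ENNReal.ofReal_ne_top (r := (5/4:ℝ)^p)))).const_add (volume (DS univ))
    simpa using h3
  exact ge_of_tendsto' h2 h1

/-- maps of least conceivable energy are holomorphic -/
lemma conformal_of_energy_le {p : ℝ} (hp : 0 < p) {Ω : Set ℂ} (hvol : volume Ω < (⊤ : ℝ≥0∞))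
    {Df : ℂ → ℂ →L[ℝ] ℂ} (hDf : LocallyIntegrableOn Df Ω)
    (hfd : HasFiniteDistortion Ω Df) (hE : energy p Ω Df ≤ volume Ω) :
    ∀ᵐ z ∂(volume.restrict Ω), Df z Complex.I = Complex.I * Df z 1 := by
  obtain ⟨-, K, hK, hKD⟩ := hfd
  have hmeas : AEMeasurable (fun z => ENNReal.ofReal (hsDist (Df z) ^ p)) (volume.restrict Ω) := by
    apply Measurable.comp_aemeasurable (g := fun x : ℝ => ENNReal.ofReal (x ^ p))
    · exact (measurable_id.pow_const p).ennreal_ofReal
    · exact hs_measurable.comp_aemeasurable hDf.aestronglyMeasurable.aemeasurable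
  have h1 : (fun _ : ℂ => (1:ℝ≥0∞)) ≤ᵐ[volume.restrict Ω]
      (fun z => ENNReal.ofReal (hsDist (Df z) ^ p)) := by
    filter_upwards with z
    rw [ENNReal.one_le_ofReal]
    exact Real.one_le_rpow (hs_ge_one _) hp.le
  have h2 := ae_eq_of_ae_le_of_lintegral_le h1 (by simpa using hvol.ne) hmeas
    (by
      rw [lintegral_const, Measure.restrict_apply_univ, one_mul]
      exact hE)
  filter_upwards [h2, hKD] with z hz hKz
  have h3 : hsDist (Df z) = 1 := by
    have h4 : hsDist (Df z) ^ p = 1 := by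
      have h5 : ENNReal.ofReal (hsDist (Df z) ^ p) = 1 := hz.symm
      rwa [ENNReal.ofReal_eq_one] at h5
    rcases (hs_ge_one (Df z)).eq_or_lt with h6 | h6
    · exact h6.symm
    · have := Real.one_lt_rpow h6 hp
      linarith
  by_cases hd : 0 < (Df z).det
  · exact hs_eq_one h3 hd
  · have h4 : ‖Df z‖^2 ≤ 0 := by
      refine hKz.trans ?_
      have := hK z
      nlinarith
    have h5 : Df z = 0 := by
      rw [← norm_eq_zero]
      exact pow_eq_zero_iff (two_ne_zero) |>.mp (le_antisymm h4 (sq_nonneg _))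
    rw [h5]; simp

/-- There are bounded multiply connected planar domains `Ω`, `Ω'` such that, for every `p > 1`,
some homeomorphism of `Ω` onto `Ω'` of finite distortion has finite `L^p` distortion energy, and
no homeomorphism of `Ω` onto `Ω'` of finite distortion attains the infimum of that energy. -/
theorem result : ∃ Ω Ω' : Set ℂ, IsPlanarDomain Ω ∧ IsPlanarDomain Ω' ∧
    IsMultiplyConnected Ω ∧ IsMultiplyConnected Ω' ∧
    Bornology.IsBounded Ω ∧ Bornology.IsBounded Ω' ∧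
    ∀ p : ℝ, 1 < p →
      (∃ g Dg, MemH Ω Ω' g Dg ∧ energy p Ω Dg < ⊤) ∧
      ¬ ∃ f Df, MemH Ω Ω' f Df ∧ energy p Ω Df = infEnergy p Ω Ω' := by
  refine ⟨DS univ, DS {n | n ≠ 0}, ⟨isOpen_DS _, isConnected_DS _⟩,
    ⟨isOpen_DS _, isConnected_DS _⟩, not_simplyConnected (n := 0) (mem_univ 0),
    not_simplyConnected (n := 1) (by decide : (1:ℤ) ≠ 0),
    isBounded_ball.subset (fun z hz => hz.1), isBounded_ball.subset (fun z hz => hz.1), ?_⟩
  intro p hp
  have hp0 : 0 < p := by linarith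
  constructor
  · refine ⟨FF (gm 0), fderiv ℝ (FF (gm 0)), FF_memH 0, (FF_energy 0 hp0).trans_lt ?_⟩
    apply ENNReal.add_lt_top.mpr ⟨vol_finite _, ?_⟩
    exact ENNReal.mul_lt_top ENNReal.ofReal_lt_top measure_closedBall_lt_top
  · rintro ⟨f, Df, hf, hE⟩
    have h1 : energy p (DS univ) Df ≤ volume (DS univ) := hE.trans_le (inf_le hp0)
    have h2 := conformal_of_energy_le hp0 (vol_finite _) hf.weak.2.1 hf.distortion h1
    obtain ⟨e, he⟩ := hf.homeo
    have hcont : ContinuousOn f (DS univ) := by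
      rw [continuousOn_iff_continuous_domRestrict]
      have : (DS univ).domRestrict f = fun z => (e z : ℂ) := funext he
      rw [this]
      exact continuous_subtype_val.comp e.continuous
    exact rigid f e he (WD.weyl (isOpen_DS _) hcont hf.weak h2)

end Pool.Agent.Results.MP_084a52_an.NoMinimizer
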